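import Pool.Agent.H14.Bal

set_option autoImplicit false

namespace Pool.Agent.Results.MP_436edf_co.Regular

open Pool.Agent.H14.Bal

theorem result (n : ℕ) (A : Fin n → Fin n → Prop) [DecidableRel A] (hl : ∀ i, ¬ A i i)
    (hb : ∀ i, indeg A i = outdeg A i) (α β : ℝ) (hα : IsLeast (vals A) α)
    (hβ : IsGreatest (vals A) β) (h1 : β - α = 1) :
    4 ≤ n ∧ Even n ∧ (Regular A ((n - 2) / 2) ∨ Regular (cpl A) ((n - 2) / 2)) := by
  rcases main A hl hb hα hβ h1.le with h | ⟨-, h4, d, hd, h | h⟩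
  · linarith
  · exact ⟨h4, ⟨d + 1, by omega⟩, Or.inl fun i => ⟨by rw [hd]; omega, by rw [hb, hd]; omega⟩⟩
  · refine ⟨h4, ⟨d, by omega⟩, Or.inr fun i => ?_⟩
    obtain ⟨a, b⟩ := compl_deg A hl i
    rw [hd] at a
    rw [hb, hd] at b
    omega

end Pool.Agent.Results.MP_436edf_co.Regular
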